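import Pool.Agent.H39.HW.SStm

/-!
# Project HW, scheme side: part NUM (the numerical inequality)
-/

set_option autoImplicit false

namespace Pool.Agent.H62.HW

open Pool.Agent.H39.HW Pool.Agent.H39.HW.Sc

theorem t_NUM : S_NUM := by
  intro ε η c y z he hn h1 h2 h3 h4 hy hz A C hA hC
  have hc0 : 0 < c := lt_of_lt_of_le he h2
  have hq1 : c ^ 2 ≤ c / 2 := by nlinarith
  have hq0 : 0 ≤ c ^ 2 := sq_nonneg c
  have h5 := (abs_le.mp h4).1
  have h6 := (abs_le.mp h4).2
  have he4 : ε ≤ 1 / 4 := by linarith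
  rcases hA with ⟨ha, rfl⟩ | ⟨ha, ha', rfl⟩ | ⟨ha, rfl⟩ <;>
  rcases hC with ⟨hb, rfl⟩ | ⟨hb, hb', rfl⟩ | ⟨hb, hb', rfl⟩ | ⟨hb, rfl⟩
  · unfold G1f G2f; linarith
  · unfold G1f G2n
    rcases max_cases (z - c) 0 with ⟨h, h'⟩ | ⟨h, h'⟩ <;> rw [h] <;> linarith
  · unfold G1f G2m
    rcases max_cases (z - c) 0 with ⟨h, h'⟩ | ⟨h, h'⟩ <;> rw [h] <;> linarith
  · unfold G1f; linarith
  · unfold G1n G2f
    rcases max_cases (y - c) 0 with ⟨h, h'⟩ | ⟨h, h'⟩ <;> rw [h] <;> linarith
  · unfold G1n G2n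
    rcases max_cases (y - c) 0 with ⟨h, h'⟩ | ⟨h, h'⟩ <;> rw [h] <;>
    rcases max_cases (z - c) 0 with ⟨g, g'⟩ | ⟨g, g'⟩ <;> rw [g] <;> linarith
  · unfold G1n G2m
    rcases max_cases (y - c) 0 with ⟨h, h'⟩ | ⟨h, h'⟩ <;> rw [h] <;>
    rcases max_cases (z - c) 0 with ⟨g, g'⟩ | ⟨g, g'⟩ <;> rw [g] <;> linarith
  · unfold G1n
    rcases max_cases (y - c) 0 with ⟨h, h'⟩ | ⟨h, h'⟩ <;> rw [h] <;> linarith
  · unfold G2f; linarith
  · unfold G2n
    rcases max_cases (z - c) 0 with ⟨h, h'⟩ | ⟨h, h'⟩ <;> rw [h] <;> linarith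
  · unfold G2m
    rcases max_cases (z - c) 0 with ⟨h, h'⟩ | ⟨h, h'⟩ <;> rw [h] <;> linarith
  · linarith

theorem t_PER : S_PER := by
  intro L b C f hL hC hs hf y z hby
  -- reduce to sums of `f (β % L)` by shifting
  have hfull : ∀ m : ℕ, ∑ β ∈ Finset.range L, f ((m + β) % L) = 0 := by
    intro m
    have : ∑ β ∈ Finset.range L, f ((m + β) % L) = ∑ i ∈ Finset.range L, f i := by
      refine Finset.sum_bij (fun β _ => (m + β) % L) ?_ ?_ ?_ ?_
      · intro β _; exact Finset.mem_range.mpr (Nat.mod_lt _ hL)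
      · intro a ha c hc h
        have ha' := Finset.mem_range.mp ha
        have hc' := Finset.mem_range.mp hc
        have h' : m + a ≡ m + c [MOD L] := h
        have h'' : a ≡ c [MOD L] := Nat.ModEq.add_left_cancel' m h'
        exact Nat.ModEq.eq_of_lt_of_lt h'' ha' hc'
      · intro i hi
        have hi' := Finset.mem_range.mp hi
        refine ⟨(i + (L - m % L)) % L, Finset.mem_range.mpr (Nat.mod_lt _ hL), ?_⟩
        have hm : m % L < L := Nat.mod_lt _ hL
        rw [Nat.add_mod, Nat.mod_mod, ← Nat.add_mod]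
        have e1 : m + (i + (L - m % L)) = i + L * (m / L + 1) := by
          have := Nat.div_add_mod m L
          have h2 : L * (m / L + 1) = L * (m / L) + L := by ring
          omega
        rw [e1, Nat.add_mul_mod_self_left, Nat.mod_eq_of_lt hi']
      · intro β _; rfl
    rw [this, hs]
  have hper : ∀ n m : ℕ, ∑ β ∈ Finset.range n, f ((m + β) % L) =
      ∑ β ∈ Finset.range (n % L), f ((m + β) % L) := by
    intro n
    induction n using Nat.strong_induction_on with
    | _ n ih =>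
      intro m
      rcases lt_or_ge n L with h | h
      · rw [Nat.mod_eq_of_lt h]
      · obtain ⟨k, rfl⟩ := Nat.exists_eq_add_of_le h
        have hk : k < L + k := by omega
        rw [Finset.sum_range_add, hfull m, zero_add]
        have h1 : ∀ x : ℕ, f ((m + (L + x)) % L) = f ((m + x) % L) := by
          intro x
          have : m + (L + x) = m + x + L := by ring
          rw [this, Nat.add_mod_right]
        simp only [h1]
        rw [ih k hk m, Nat.add_mod_left]
  have hb : ∀ n m : ℕ, |∑ β ∈ Finset.range n, f ((m + β) % L)| ≤ C * L := by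
    intro n m
    rw [hper]
    calc |∑ β ∈ Finset.range (n % L), f ((m + β) % L)|
        ≤ ∑ β ∈ Finset.range (n % L), |f ((m + β) % L)| := Finset.abs_sum_le_sum_abs _ _
      _ ≤ ∑ β ∈ Finset.range (n % L), C := Finset.sum_le_sum fun _ _ => hf _
      _ = (n % L : ℕ) * C := by rw [Finset.sum_const, Finset.card_range, nsmul_eq_mul]
      _ ≤ L * C := by
        apply mul_le_mul_of_nonneg_right _ hC
        exact_mod_cast (Nat.mod_lt n hL).le
      _ = C * L := mul_comm _ _
  rw [Finset.sum_Ico_eq_sum_range]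
  have h2 : ∀ i : ℕ, f ((y + i - b) % L) = f ((y - b + i) % L) := by
    intro i
    have : y + i - b = y - b + i := by omega
    rw [this]
  simp only [h2]
  have h3 := hb (z - y) (y - b)
  have hCL : 0 ≤ C * L := mul_nonneg hC (Nat.cast_nonneg _)
  calc |∑ i ∈ Finset.range (z - y), f ((y - b + i) % L)| ≤ C * L := h3
    _ ≤ 2 * C * L := by linarith

end Pool.Agent.H62.HW
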